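import Pool.Agent.WR3.StmtsC

/-!
WR4: the values w(a) of the limit of `s_n(a)/sbar_n` at the integers are distributed like the values of
the almost everywhere limit on the 3-adic units; Q1 implies the inequality of Q2 for almost every 3-adic
unit with one constant (MP_0f3fac_nt). Definitions and statements of the squad; the docstrings contain
the complete proofs. Definitions of WIR, WR2, WR3 are used: `T`, `uT`, `cnt`, `W`, `Wp`, `pj`, `en`,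
`mn`, `od`, `Pre`, `Lv`, `av`, `wr`, `dl`, `GS`, `mu`, `FR`, ...

PAPER PROOF. Let rho a = lim FR a x / x (WR3), sigma = lim 2^(-n) sum_l en n l. Claim: for large m,
rho a is close to 2 sigma wr m a for most a ≤ X (X → ∞). Let K = log_2 X. TX X is the set of the a ≤ X
with T^K a ≤ X^0.95 and without predecessor ≤ X^0.95; all but o(X) integers a ≤ X are in TX X (TCO), and
every orbit has at most K elements in TX X (TMU). So the sum over a ∈ TX X of |FR a x - theta_a x| is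
almost subharmonic, uniformly (SUB: the multiplicity costs only a factor log X, the defect dl is smaller
than every power), and by the maximum principle MIN it is enough to bound it in one window near
x = X^(1/200) (LIM). There the number of steps is at most 3K/5 up to a small error (LNG), the counts have
period 3^(3K/5) ≤ X, and their averages over the residue classes are known (SHT: the finite level form of
the almost everywhere convergence of WIR).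
-/

namespace Pool.Agent.WR4

open Pool.Agent.WIR Pool.Agent.WR2 Pool.Agent.WR3
open scoped BigOperators ENNReal Topology
open Filter

/-- the typical integers up to `X`. -/
def TX (X : ℕ) : Set ℕ :=
  {a | (T^[Nat.log 2 X] a) ^ 20 ≤ X ^ 19 ∧ ∀ b j, 0 < b → b ^ 20 ≤ X ^ 19 → T^[j] b ≠ a}

open Classical in
/-- the typical integers in `[1, X]`. -/
noncomputable def TF (X : ℕ) : Finset ℕ := (Finset.Icc 1 X).filter (fun a => a ∈ TX X)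

/-- short paths: pairs (τ, b) above a with τ < t. -/
noncomputable def SH (t a : ℕ) (x : ℝ) : ℝ :=
  ∑ τ ∈ Finset.range t, ∑ l ∈ Finset.range (τ + 1),
    if (2 : ℝ) ^ τ ≤ x * 3 ^ l then (uT τ l a : ℝ) else 0

/-- long paths: pairs (τ, c) above a with τ ≥ t. -/
noncomputable def LR (t a : ℕ) (x : ℝ) : ℝ :=
  ∑ c ∈ Finset.Icc 1 ⌊(a : ℝ) * x⌋₊,
    (Set.ncard {τ : ℕ | t ≤ τ ∧ T^[τ] c = a ∧ (2 : ℝ) ^ τ ≤ x * 3 ^ od τ c} : ℝ)

/-- mean of the short paths. -/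
noncomputable def TM (t : ℕ) (x : ℝ) : ℝ :=
  ∑ τ ∈ Finset.range t, ∑ l ∈ Finset.range (τ + 1),
    if (2 : ℝ) ^ τ ≤ x * 3 ^ l then (τ.choose l : ℝ) / 3 ^ l else 0

/-- typical pairs (τ, l) for the parameter m. -/
def TP (m τ l : ℕ) : Prop :=
  |2 * (l : ℤ) - τ| ≤ (m : ℤ) ^ 4 ∧ m ^ 6 ≤ τ ∧ 8 * l ≤ 5 * τ

/-- the parameter belonging to x. -/
noncomputable def mx (x : ℝ) : ℕ := mn (Nat.log 2 ⌊x⌋₊)

/-- sigma is the limit of the means. -/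
def Sg (σ : ℝ) : Prop := 0 < σ ∧ Tendsto (fun n : ℕ => (∑' l, en n l) / 2 ^ n) atTop (𝓝 σ)

/-- rho is the function of the limits. -/
def Rh (ρ : ℕ → ℝ) : Prop := ∀ a, 0 < a → Tendsto (fun x : ℝ => FR a x / x) atTop (𝓝 (ρ a))

/-- total distance on the typical integers. -/
noncomputable def GX (X : ℕ) (θ : ℕ → ℝ) (x : ℝ) : ℝ := ∑ a ∈ TF X, |FR a x - θ a * x|

/-! ### typical integers -/

/-- **Row TMU** (multiplicity; no hypotheses, T b > 0 for b > 0). PROOF. K = Nat.log 2 X. If T^τ0 c = a0 ∈ TF X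
then b = T^K a0 has b^20 ≤ X^19, b > 0 (a0 ≥ 1), and for τ ≥ τ0 + K: T^τ c = T^(τ-τ0-K) b has a predecessor
b with b^20 ≤ X^19, so it is not in TX X. So all τ with T^τ c ∈ TF X lie in an interval [τ0, τ0+K), τ0 the
least one: (1), (2). (3): the sets {τ : T^τ c = a, ...}, a ∈ TF X, are pairwise disjoint subsets of that
set. -/
def TmuStmt : Prop :=
  ∀ X c : ℕ, Set.Finite {τ : ℕ | T^[τ] c ∈ TF X} ∧
    Set.ncard {τ : ℕ | T^[τ] c ∈ TF X} ≤ Nat.log 2 X ∧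
    ∀ y : ℝ, ∑ a ∈ TF X, mu a y c ≤ Nat.log 2 X

open Classical in
/-- **Row TCO** (most integers are typical; uses UPB, SMU, PRD of WR3, WR2.PreStmt, WIR.HoeStmt). PROOF. K =
Nat.log 2 X, so 2^K ≤ X < 2^(K+1); Z = {b > 0 : b^20 ≤ X^19}, it has at most X^(19/20) elements. (a) a ≤ X
with (T^K a)^20 > X^19: l = od K a; T^K a ≤ 3^l (a + 2^K)/2^K < 3^(l+1) (UPB). If 200 l ≤ 102 K then
3^l ≤ 2^(0.81 K) (3^102 ≤ 2^162) and T^K a < 3 * 2^(0.81 K) ≤ X^0.95 for large X; so 200 l > 102 K, and as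
in row TER of WR3 (Pool/Agent/Helper3_WR3/TER.lean) there are at most 4 * 2^K exp(-K/5000) of them. (b) a in
Z: few. (c) the other a ≤ X not in TX X: (T^K a)^20 ≤ X^19 and a = T^j b with b ∈ Z; choose such a pair
(b, j) with the least j; j ≥ 1 (a ∉ Z) and for 1 ≤ i ≤ j the number T^i b is not in Z (otherwise
(T^i b, j - i) is a smaller pair). Let i be the least i ≥ 1 with g = T^i b ∈ G := {g : 1 ≤ g ≤ X,
(T^K g)^20 ≤ X^19}; i ≤ j as a ∈ G. If j - i ≥ K then T^(i+K) b = T^K g ∈ Z with 1 ≤ i + K ≤ j (if K ≥ 1), a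
contradiction. So j - i < K, and a = T^(j-i) g where g depends on b only: at most K card Z of them. Total
≤ 4 * 2^K exp(-K/5000) + (K+1) X^(19/20) ≤ ε X for large X. -/
def TcoStmt : Prop :=
  ∀ ε : ℝ, 0 < ε → ∃ X0 : ℕ, ∀ X : ℕ, X0 ≤ X →
    (((Finset.Icc 1 X).filter (fun a => a ∉ TX X)).card : ℝ) ≤ ε * X

/-! ### short and long paths -/

/-- **Row SLS** (uses WR3.RmuStmt, WR2.PreStmt). PROOF. FR a x = sum over c ∈ Icc 1 ⌊a x⌋₊ of the number of the τ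
with T^τ c = a, 2^τ ≤ x 3^(od τ c) (finite, RMU (1)); split into τ < t and τ ≥ t. The number of the pairs
(τ, c) with τ < t (c ≤ a x is automatic, RMU (2)) is the sum over τ < t and l ≤ τ with 2^τ ≤ x 3^l of
card Pre τ l a = uT τ l a (PRE (1), (3), (4)). -/
def SlsStmt : Prop :=
  ∀ a : ℕ, 0 < a → ∀ (t : ℕ) (x : ℝ), FR a x = SH t a x + LR t a x

/-- **Row LNG** (long paths are rare; uses TMU, UPB, SMU, PRD (WR3), WR3.RmuStmt, WR2.PreStmt, WIR.HoeStmt).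
PROOF. K = Nat.log 2 X, t = 3 K/5. The sum counts pairs (τ, c), τ ≥ t, a = T^τ c ∈ TF X, c ≤ a x ≤ X x. For
fixed c at most K values τ (TMU). If there is one, then b = T^t c > 0 satisfies b^20 > X^19 (otherwise a has
the predecessor b with b^20 ≤ X^19). The number of the c ≤ X x with (T^t c)^20 > X^19: l = od t c; if
200 l ≤ 102 t then 3^l ≤ 2^(0.81 t) and by UPB T^t c ≤ 2^(-0.19 t) (X x + 2^t) ≤ 2^(-0.19 t) 2 X^(201/200),
t ≥ 0.6 log_2 X - 1.6, so T^t c ≤ 3 X^(1.005 - 0.114) < X^0.95 for large X; so 200 l > 102 t. For fixed l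
the number of the c ≤ X x with od t c = l is ≤ ((X x + 2^t)/2^t + 1) C(t,l) ≤ 3 (X x/2^t) C(t,l) (UPB, PRD,
SMU as in row TER of WR3, Pool/Agent/Helper3_WR3/TER.lean; 2^t ≤ X), and by HOE the sum over these l is ≤
3 X x exp(-t/5000). So the whole sum is ≤ 3 K exp(-t/5000) X x ≤ ε X x for large X. -/
def LngStmt : Prop :=
  ∀ ε : ℝ, 0 < ε → ∃ X0 : ℕ, ∀ X : ℕ, X0 ≤ X → ∀ x : ℝ, 1 ≤ x → x ^ 200 ≤ X →
    ∑ a ∈ TF X, LR (3 * Nat.log 2 X / 5) a x ≤ ε * X * x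

/-- **Row MCR** (mean value at all real x; uses WR3.CvgStmt, WR2.UsbStmt, WIR.TybStmt, WIR.HoeStmt). PROOF. Row MCV
of WR3 (Pool/Agent/Helper77_WR3/MCV.lean) shows that F x := sum over the pairs with 3^l < 2^τ ≤ x 3^l of
C(τ,l)/3^l satisfies F x/x → ρ and sum_l en n l = F (2^n) - F (2^(n-1)), so ρ = 2σ. TM t x differs from F x
by (a) the pairs with 2^τ ≤ 3^l, τ < t: C(τ,l)/3^l ≤ C(τ,l)/2^τ and l ≥ 0.63 τ (3^l ≥ 2^τ), so
2 l - τ ≥ τ/4, HOE: the sum over l is ≤ exp(-τ/32) (τ ≥ 1), total a constant; (b) the pairs with τ ≥ t,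
3^l < 2^τ ≤ x 3^l: C(τ,l)/3^l ≤ x C(τ,l)/2^τ, x ≤ 2^(τ/60) so 3^l ≥ 2^(59τ/60), l ≥ 0.62 τ,
2 l - τ ≥ 0.24 τ: the sum is ≤ x sum_(τ ≥ t) exp(-τ/40) ≤ 41 x exp(-t/40) ≤ ε x/2 for large x. -/
def McrStmt : Prop :=
  ∀ σ : ℝ, Sg σ → ∀ ε : ℝ, 0 < ε → ∃ x0 : ℝ, 1 ≤ x0 ∧ ∀ (x : ℝ) (t : ℕ), x0 ≤ x →
    60 * Real.log x ≤ t * Real.log 2 → |TM t x - 2 * σ * x| ≤ ε * x

open Classical in
/-- **Row SHR** (the atypical pairs; uses MCR, WIR.HoeStmt). σ with Sg σ is given. PROOF. n = Nat.log 2 ⌊x⌋₊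
(2^n ≤ x < 2^(n+1)), m = mn n (m^6 ≤ n < (m+1)^6). Choose J with (2σ+1)/2^J ≤ ε/2. (0) pairs with
2^τ ≤ (x/2^J) 3^l: sum ≤ TM t (x/2^J) ≤ (2σ+1) x/2^J (MCR for x/2^J, ε = 1). The other pairs satisfy
C(τ,l)/3^l ≤ x C(τ,l)/2^τ, 2^τ > 2^(n-J) 3^l, so τ ≥ n - J. (A) |2l-τ| > m^4, τ ≤ 100 n: HOE, for fixed τ
at most 2 exp(-m^8/(200 n)), total 200 (n+1) exp(-m^8/(200 n)) → 0 since (m+1)^6 > n. (B) τ > 100 n:
3^l ≥ 2^(τ-n-1) ≥ 2^(0.98 τ), l ≥ 0.61 τ, 2l - τ ≥ 0.22 τ, sum over l ≤ exp(-0.02 τ), sum over τ > 100 n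
tends to 0. (C) 8 l > 5 τ: 2l - τ ≥ τ/4, exp(-τ/32), sum over τ ≥ n - J tends to 0. (D) τ < m^6 ≤ n: if
l ≥ J then 2^τ > 2^(n-J) 3^l ≥ 2^n, impossible; if l < J then |2l-τ| ≥ n - 3J > m^4 for large n: case
(A). So the sum is ≤ ε x for large x. -/
def ShrStmt : Prop :=
  ∀ σ : ℝ, Sg σ → ∀ ε : ℝ, 0 < ε → ∃ x0 : ℝ, 1 ≤ x0 ∧ ∀ (x : ℝ) (t : ℕ), x0 ≤ x →
    60 * Real.log x ≤ t * Real.log 2 →
    ∑ τ ∈ Finset.range t, ∑ l ∈ Finset.range (τ + 1),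
      (if (2 : ℝ) ^ τ ≤ x * 3 ^ l ∧ ¬ TP (mx x) τ l then (τ.choose l : ℝ) / 3 ^ l else 0) ≤ ε * x

open Classical in
/-- **Row SHP** (the typical pairs; uses WIR.UlxStmt, WIR.CodStmt, WR2.AvaStmt, WR2.WrbStmt). PROOF. n, m = mx x
as in SHR. C from ULX with A = 24 (C independent of ε), m0 for ε := δ; x large: m ≥ m0, m ≥ 2. For a pair
with 2^τ ≤ x 3^l and TP m τ l: COD uT τ l a = cnt τ {l} l a, ULX and AVA (1), (2) (functions of level l and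
m, m ≤ l: 2 l ≥ m^6 - m^4 ≥ 2 m; pj m l of the class of a is the class of a): sum over Icc 1 (3^N) of
|uT τ l a - c wr m a|, c = C(τ,l)/3^l, is at most 3^N (C/(m+1)^24 2^τ/3^l + δ c av m (wr m)) ≤
3^N (C x/(m+1)^24 + δ c) (|u| ≤ max 0 (|u| - δ v) + δ v; av (wr m) ≤ 1, WRB). The number of such pairs:
2^τ ≤ 2^(n+1) 3^l and 2 l ≤ τ + m^4 give 0.2 τ ≤ n + 1 + m^4, τ ≤ 5 (n + 1 + n) ≤ 15 n: at most (15 n + 1)^2
pairs, and (m+1)^24 > n^4. So the total is ≤ 3^N (C (15 n+1)^2 x/n^4 + δ TM t x). -/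
def ShpStmt : Prop :=
  ∀ δ : ℝ, 0 < δ → ∃ x0 : ℝ, 1 ≤ x0 ∧ ∀ (x : ℝ) (t N : ℕ), x0 ≤ x → t ≤ N →
    ∑ τ ∈ Finset.range t, ∑ l ∈ Finset.range (τ + 1),
      (if (2 : ℝ) ^ τ ≤ x * 3 ^ l ∧ TP (mx x) τ l then
        ∑ a ∈ Finset.Icc 1 (3 ^ N), |(uT τ l a : ℝ) - (τ.choose l : ℝ) / 3 ^ l * wr (mx x) a| else 0)
      ≤ 3 ^ N * (δ * TM t x + δ * x)

/-- **Row SHT** (short paths on average; uses MCR, SHR, SHP, SMU (WR3), WR2.AvaStmt, WR2.WrbStmt, WR2.VrbStmt).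
PROOF. m1 = mx x. P = sum of C(τ,l)/3^l over the pairs with 2^τ ≤ x 3^l and TP m1, R = the same over the other
pairs with 2^τ ≤ x 3^l; P + R = TM t x. |SH t a x - 2 σ x wr m a| ≤ sum_(TP) |uT τ l a - c wr m1 a|
+ sum_(not TP) uT τ l a + |P - 2 σ x| wr m1 a + 2 σ x |wr m1 a - wr m a|. Sum over a ∈ Icc 1 (3^N): first
part ≤ 3^N δ (TM t x + x) (SHP); second 3^N R ≤ 3^N δ x (SHR; sum over Icc 1 (3^N) of uT τ l = 3^N C(τ,l)/3^l,
SMU (1), AVA (1), l ≤ τ < t ≤ N); |P - 2σx| ≤ |TM t x - 2σx| + R ≤ 2 δ x (MCR, SHR) and av (wr m1) ≤ 1 (level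
m1 ≤ N; m1 ≤ Nat.log 2 ⌊x⌋₊ ≤ t); last one: VRB with A = 1, r = m, r' = m1, R = max m m1 =: m1 for large x:
|wr m1 a - wr m a| ≤ VR m m1 a, average ≤ C/(m+1): 2 σ x C/(m+1) 3^N ≤ (ε/2) x 3^N for m ≥ m0. -/
def ShtStmt : Prop :=
  ∀ σ : ℝ, Sg σ → ∀ ε : ℝ, 0 < ε → ∃ m0 : ℕ, ∀ m : ℕ, m0 ≤ m → ∃ x0 : ℝ, 1 ≤ x0 ∧
    ∀ (x : ℝ) (t N : ℕ), x0 ≤ x → 60 * Real.log x ≤ t * Real.log 2 → t ≤ N →
      ∑ a ∈ Finset.Icc 1 (3 ^ N), |SH t a x - 2 * σ * x * wr m a| ≤ ε * x * 3 ^ N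

/-- **Row WNR** (the window; uses SLS, LNG, SHT, PRD, SMU (WR3), WR2.WrbStmt). PROOF. K = Nat.log 2 X, t = N = 3 K/5;
3^(3K) = 27^K ≤ 32^K = 2^(5K), so 3^N ≤ 2^K ≤ X; x^200 ≤ X gives 60 log x ≤ 0.3 log X ≤ t log 2 for large
X, and x ≥ X^(1/200)/2 is large; m ≤ N for large X. For a ∈ TF X (a ≥ 1): |FR a x - 2σ x wr m a| ≤
|SH t a x - 2σ x wr m a| + LR t a x (SLS, LR ≥ 0). LNG for the second part. First part: enlarge TF X to
Icc 1 X; the function has period 3^N (SMU (2) for uT τ l, l < t ≤ N; wr m has period 3^m, WRB), PRD (1):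
≤ (X/3^N + 1) ε x 3^N ≤ 2 ε X x. -/
def WnrStmt : Prop :=
  ∀ σ : ℝ, Sg σ → ∀ ε : ℝ, 0 < ε → ∃ m0 : ℕ, ∀ m : ℕ, m0 ≤ m → ∃ X0 : ℕ, ∀ X : ℕ, X0 ≤ X →
    ∀ x : ℝ, 1 ≤ x → x ^ 200 ≤ X → (X : ℝ) ≤ (2 * x) ^ 200 →
      GX X (fun a => 2 * σ * wr m a) x ≤ ε * X * x

/-- **Row SUB** (almost subharmonic; uses TMU, SMU, DEL, PRD, RMU, RTY of WR3). PROOF. θ_a x = θ_a (x/2) +
θ_a (3x/2)/3, so |FR a x - θ_a x| ≤ |FR a (x/2) - θ_a x/2| + |FR a (3x/2) - θ_a 3x/2|/3 + |d_a| with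
d_a = FR a x - FR a (x/2) - FR a (3x/2)/3. As in row HAR of WR3 (Pool/Agent/Helper33_WR3/HAR.lean; the
lemmas gs_diff, dl_per there) take t with 12 (t+1) ≤ Nat.log 2 ⌊x⌋₊ < 12 (t+2). RTY for (t+1, x), (t, x/2),
(t, 3x/2) and gs_diff: |d_a| ≤ 3 * 2^(t+1) + sum_(l < t+2) sum_(c ∈ Icc 1 ⌊a y_l⌋₊) mu a (y_l) c |dl t l c|,
y_l = 3^l x/2^(t+1). Sum over a ∈ TF X ⊆ Icc 1 X: errors 3 X 2^(t+1) ≤ 3 X x^(1/12); in the double sum
enlarge Icc 1 ⌊a y_l⌋₊ to Icc 1 ⌊X y_l⌋₊, exchange the sums, and use TMU (3):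
≤ K sum_l sum_(c ≤ X y_l) |dl t l c|, K = Nat.log 2 X ≤ 200 log x/log 2 (X ≤ x^200); PRD (1):
≤ K sum_l (X y_l/3^l + 1) P_l = K (X x/2^(t+1) + 1) sum_l P_l ≤ K (X x/2^t) C 2^t/(t+1)^(p+1) (DEL with p + 1),
and t + 1 ≥ log x/24: ≤ D X x/(log x)^p. -/
def SubStmt : Prop :=
  ∀ p : ℕ, ∃ D x0 : ℝ, 0 ≤ D ∧ 2 ≤ x0 ∧ ∀ (X : ℕ) (θ : ℕ → ℝ) (x : ℝ), 1 ≤ X → x0 ≤ x →
    (X : ℝ) ≤ x ^ 200 →
      GX X θ x ≤ GX X θ (x / 2) + GX X θ (3 * x / 2) / 3 + D * X * x / Real.log x ^ p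

/-- **Row LIM** (uses SUB, WNR, RLI (WR3), MIN (WR3), WR2.WrbStmt). PROOF. D, x0 from SUB for p = 2, κ from MIN
(p = 0) for D. θ a = 2σ wr m a (≥ 0). g v = GX X θ (exp v)/(X exp v), f = -g. SUB gives for v ≥ v0 :=
log X/200 (X large, so exp v0 ≥ x0, v0 ≥ 2) f v ≥ (f (v - log 2) + f (v + log (3/2)))/2 - D/v^2
(GX (x/2)/(X x) = g (v - log 2)/2, GX (3x/2)/(3 X x) = g (v + log (3/2))/2). Bounded below for v ≥ 0:
g v ≤ (1/X) sum_(a ∈ TF X) (C_a + θ a) (RLI, a depends on X: B depends on X). On [v0 - log 2, v0): x = exp v,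
x^200 ≤ X ≤ (2x)^200: f v ≥ -ε/2 (WNR). MIN: g v ≤ ε/2 + κ/v0 for v ≥ v0; v → ∞:
(1/X) sum_(a ∈ TF X) |ρ a - θ a| ≤ ε/2 + κ/v0 ≤ ε for large X (finite sum of the limits
|FR a x/x - θ a| → |ρ a - θ a|). -/
def LimStmt : Prop :=
  ∀ σ : ℝ, Sg σ → ∀ ρ : ℕ → ℝ, Rh ρ → ∀ ε : ℝ, 0 < ε → ∃ m0 : ℕ, ∀ m : ℕ, m0 ≤ m →
    ∃ X0 : ℕ, ∀ X : ℕ, X0 ≤ X → ∑ a ∈ TF X, |ρ a - 2 * σ * wr m a| ≤ ε * X

open Classical in
/-- **Row EQD** (closeness in measure; uses LIM, TCO). PROOF. LIM with ε²/2, TCO with ε/2: a ∈ Icc 1 X with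
|ρ a - 2σ wr m a| > ε is not in TX X, or in TF X; Markov: ε card ≤ (ε²/2) X. -/
def EqdStmt : Prop :=
  ∀ σ : ℝ, Sg σ → ∀ ρ : ℕ → ℝ, Rh ρ → ∀ ε : ℝ, 0 < ε → ∃ m0 : ℕ, ∀ m : ℕ, m0 ≤ m →
    ∃ X0 : ℕ, ∀ X : ℕ, X0 ≤ X →
      (((Finset.Icc 1 X).filter (fun a => ε < |ρ a - 2 * σ * wr m a|)).card : ℝ) ≤ ε * X

/-! ### the 3-adic side -/

open Classical in
/-- proportion of the units z of Z/3^m with W m z ≤ r. -/
noncomputable def pr (m : ℕ) (r : ℝ) : ℝ :=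
  ((Finset.univ.filter (fun z : ZMod (3 ^ m) => IsUnit z ∧ W m z ≤ r)).card : ℝ) / 3 ^ m

open Classical in
/-- **Row CNU** (counting classes; uses WR2.AvaStmt). PROOF. For m ≥ 1: a ≥ 1 is prime to 3 iff its class mod 3^m is
a unit (`ZMod.isUnit_iff_coprime`), wr m a = W m (class). The indicator function has period 3^m, its sum
over Icc 1 (k 3^m) is k times the number of classes (AVA (2)); X = k 3^m + remainder. -/
def CnuStmt : Prop :=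
  ∀ m : ℕ, 1 ≤ m → ∀ (r : ℝ) (X : ℕ),
    |(((Finset.Icc 1 X).filter (fun a => ¬ 3 ∣ a ∧ wr m a ≤ r)).card : ℝ) - X * pr m r| ≤ 3 ^ m

open MeasureTheory in
/-- **Row DIS** (distribution functions; uses WIR.MeaStmt, WIR.UtsStmt). PROOF. For m ≥ 1 let
A m s = {x ∈ U3 : Wp m x ≤ s}; x ∈ U3 iff the class toZModPow m x is a unit (UTS (4)), so by MEA for the
function g z = 1 if IsUnit z ∧ W m z ≤ s, else 0: A m s is measurable and μ3 (A m s) = pr m s (as a real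
number; μ3 is a probability measure). (1) If Wp m x → w x, x ∈ U3 and w x > s then x ∉ A m s for all large
m. So the indicator of A m s is ≤ (indicator of {x ∈ U3 : w x ≤ s}) + h_m x with h_m x → 0 a.e., 0 ≤ h_m
≤ 1; dominated convergence. (2) In the same way for {x ∈ U3 : w x < s}: for these x, x ∈ A m s for all
large m. (w is measurable.) -/
def DisStmt : Prop :=
  ∀ w : ℤ_[3] → ℝ, Measurable w → (∀ᵐ x ∂μ3, Tendsto (fun m => Wp m x) atTop (𝓝 (w x))) →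
    ∀ s ε : ℝ, 0 < ε → ∃ m0 : ℕ, ∀ m : ℕ, m0 ≤ m →
      pr m s ≤ (μ3 {x | x ∈ U3 ∧ w x ≤ s}).toReal + ε ∧
      (μ3 {x | x ∈ U3 ∧ w x < s}).toReal - ε ≤ pr m s

/-! ### the Syracuse distribution -/

/-- the distribution of the Syracuse random variable on Z/3^n: Sy (n+1) z is the sum over p ≥ 1 of
2^(-p) Sy n ((2^p z - 1)/3). -/
noncomputable def Sy : (n : ℕ) → ZMod (3 ^ n) → ℝ
  | 0, _ => 1
  | n + 1, z => ∑' p : ℕ, (1 / 2 : ℝ) ^ (p + 1) * ∑ y : ZMod (3 ^ n),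
      if (2 : ZMod (3 ^ (n + 1))) ^ (p + 1) * z = 3 * ((y.val : ℕ) : ZMod (3 ^ (n + 1))) + 1
        then Sy n y else 0

/-- **Row SYF** (no hypotheses). PROOF. Induction on n for the bounds: for given p and z at most one y satisfies
2^(p+1) z = 3 y + 1 (3 (y - y') = 0 in Z/3^(n+1) with 0 ≤ y, y' < 3^n gives y = y'), so the inner sum is in
[0, 1] and the sum of (1/2)^(p+1) is 1. Equation: the term p = 0 is half of the sum over y, and the terms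
p + 1 are (1/2) (1/2)^(p+1) times the inner sum for 2^(p+1) (2 z) (summable). -/
def SyfStmt : Prop :=
  (∀ (n : ℕ) (z : ZMod (3 ^ n)), 0 ≤ Sy n z ∧ Sy n z ≤ 1) ∧
  (∀ (n : ℕ) (z : ZMod (3 ^ (n + 1))), Sy (n + 1) z = ((∑ y : ZMod (3 ^ n),
      if 2 * z = 3 * ((y.val : ℕ) : ZMod (3 ^ (n + 1))) + 1 then Sy n y else 0)
        + Sy (n + 1) (2 * z)) / 2)

/-- **Row SYR** (uses SYF). PROOF. Induction on n; n = 0: cnt M (Ici 0) 0 z = 2^M (all of ZMod 1 is one point).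
Step: a set O ⊆ {1..M} with at least n + 1 elements corresponds to (p, O'), p = min O ∈ {1..M},
O' = (O without p) - p ⊆ {1..M-p} with at least n elements, and FO (n+1) O = 2^(-p) (1 + 3 (any lift of
FO n O')): rk O p = 0, rk O (q + p) = rk O' q + 1. So FO (n+1) O = z iff 2^p z = 3 y + 1 with y = FO n O'.
So cnt M (Ici (n+1)) (n+1) z/2^M = sum over p ≤ M of 2^(-p) (sum over y with 2^p z = 3 y + 1 of
cnt (M-p) (Ici n) n y/2^(M-p)). Now M → ∞: `tendsto_tsum_of_dominated_convergence` with the bound 2^(-p)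
(at most one y, cnt M ≤ 2^M). -/
def SyrStmt : Prop :=
  ∀ (n : ℕ) (z : ZMod (3 ^ n)),
    Tendsto (fun M : ℕ => (cnt M (Set.Ici n) n z : ℝ) / 2 ^ M) atTop (𝓝 (Sy n z))

/-- **Row SYC** (classes; uses SYR, WIR.MeaStmt). PROOF. Fatou on the class: ∫ ofReal w over the class of z is
≤ liminf_m ∫ ofReal (Wp m) over the class. For m ≥ n the last one is, by MEA for the function
g y = ofReal (W m y) if (y mod 3^n) = z, else 0 (toZModPow n x is the image of toZModPow m x), equal to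
3^(-m) sum over these y of 3^m/2^(3m) cnt (3m) (Ici m) m y, that is 2^(-3m) times the number of the
O ⊆ {1..3m} with at least m elements and FO n O = z (FO n O is the image of FO m O), so it is at most
ofReal (cnt (3m) (Ici n) n z/2^(3m)), which tends to ofReal (Sy n z) by SYR. -/
def SycStmt : Prop :=
  ∀ w : ℤ_[3] → ℝ, Measurable w → (∀ x, 0 ≤ w x) →
    (∀ᵐ x ∂μ3, Tendsto (fun m => Wp m x) atTop (𝓝 (w x))) →
    ∀ (n : ℕ) (z : ZMod (3 ^ n)),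
      ∫⁻ x in {x : ℤ_[3] | PadicInt.toZModPow n x = z}, ENNReal.ofReal (w x) ∂μ3
        ≤ ENNReal.ofReal (Sy n z)

/-- **Row COV** (covering by mixed power sums; uses SYR, WIR.HoeStmt). PROOF. n ≥ 1, z a unit, z' = 2^(-6n) z, a
unit. By SYR there is M ≥ 6n with cnt M (Ici n) n z'/2^M > Sy n z'/2 ≥ c/(2 3^n) > exp(-4n/3) for n ≥ n1
(e^(4/3) > 3.7). The number of the O ⊆ {1..M} with fewer than n elements in {1..6n} is
2^(M-6n) sum_(r < n) C(6n,r) ≤ 2^M exp(-4n/3) (HOE, second part, s = 6n, u = 4n). So there is O ⊆ {1..M}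
with FO n O = z' and at least n elements ≤ 6n; let q_0 < ... < q_(n-1) be its n smallest elements. The
elements of rank ≥ n do not matter (3^n = 0), so z' = sum_(i<n) 3^i 2^(-q_i), and e i = 6n - q_i. -/
def CovStmt : Prop :=
  ∀ c : ℝ, 0 < c → (∀ n : ℕ, 1 ≤ n → ∀ z : ZMod (3 ^ n), IsUnit z → c ≤ 3 ^ n * Sy n z) →
    ∃ n1 : ℕ, ∀ n : ℕ, n1 ≤ n → ∀ z : ZMod (3 ^ n), IsUnit z →
      ∃ e : ℕ → ℕ, (∀ i : ℕ, i + 1 < n → e (i + 1) < e i) ∧ (∀ i : ℕ, i < n → e i < 6 * n) ∧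
        z = ∑ i ∈ Finset.range n, 3 ^ i * 2 ^ e i

end Pool.Agent.WR4
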