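import Pool.Agent.WR4.Stmts

/-!
WR4, second file: the Syracuse densities converge almost everywhere to the limit of the densities `W`.
-/

namespace Pool.Agent.WR4

open Pool.Agent.WIR Pool.Agent.WR2 Pool.Agent.WR3
open scoped BigOperators ENNReal Topology
open Filter

/-- **Row SYM** (uses SYR, WIR.HoeStmt). PROOF. Let b M z = cnt M (Ici n) n z/2^M. b is nondecreasing in M: the
words O and O ∪ {M+1} of length M+1 have at least n elements if O has, and the same FO n (the new
element has rank ≥ n and 3^n = 0), so cnt (M+1) (Ici n) n z ≥ 2 cnt M (Ici n) n z. So b (3n) z ≤ Sy n z (SYR,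
`Monotone.ge_of_tendsto`), and W n z = 3^n b (3n) z: first claim. The sum of b M z over z is the
proportion of the words of length M with at least n elements, ≤ 1, so the sum of Sy n z is ≤ 1 (limit of
finite sums), and the sum of b (3n) z is 1 - 2^(-3n) sum_(r < n) C(3n,r) ≥ 1 - exp(-n/6) (n ≥ 1; HOE, second
part, s = 3n, u = n: s - 2r ≥ n for r < n, n^2/(6n) = n/6; n = 0: the sum is empty). -/
def SymStmt : Prop :=
  (∀ (n : ℕ) (z : ZMod (3 ^ n)), W n z ≤ 3 ^ n * Sy n z) ∧
  (∀ n : ℕ, ∑ z : ZMod (3 ^ n), (Sy n z - W n z / 3 ^ n) ≤ Real.exp (-((n : ℝ) / 6)))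

open MeasureTheory in
/-- **Row SYA** (uses SYM, WIR.MeaStmt). PROOF. D m x = 3^m Sy m (x mod 3^m) - Wp m x ≥ 0 (SYM), and by MEA the
integral of ofReal (D m) is 3^(-m) sum_z ofReal (3^m Sy m z - W m z) = ofReal (sum_z (Sy m z - W m z/3^m)) ≤
ofReal (exp (-m/6)), which is summable over m. So the sum over m of ofReal (D m x) has a finite integral
(`lintegral_tsum`) and is finite for almost every x; then D m x → 0. -/
def SyaStmt : Prop :=
  ∀ w : ℤ_[3] → ℝ, (∀ᵐ x ∂μ3, Tendsto (fun m => Wp m x) atTop (𝓝 (w x))) →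
    ∀ᵐ x ∂μ3, Tendsto (fun m : ℕ => 3 ^ m * Sy m (PadicInt.toZModPow m x)) atTop (𝓝 (w x))

end Pool.Agent.WR4
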