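import Pool.Agent.WR3.Done
import Pool.Agent.WR4.StmtsB
import Pool.Agent.Helper21_WR4.TMU
import Pool.Agent.Helper22_WR4.TCO
import Pool.Agent.Helper42_WR4.SLS
import Pool.Agent.Helper13_WR4.LNG
import Pool.Agent.Helper62_WR4.MCR
import Pool.Agent.Helper17_WR4.SHR
import Pool.Agent.Helper92_WR4.SHP
import Pool.Agent.Helper19_WR4.SHT
import Pool.Agent.Helper66_WR4.WNR
import Pool.Agent.Helper15_WR4.SUB
import Pool.Agent.Helper90_WR4.LIM
import Pool.Agent.Helper81_WR4.EQD
import Pool.Agent.Helper65_WR4.CNU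
import Pool.Agent.Helper95_WR4.DIS
import Pool.Agent.Helper25_WR4.SYF
import Pool.Agent.Helper13_WR4.SYR
import Pool.Agent.Helper86_WR4.SYC
import Pool.Agent.Helper88_WR4.COV
import Pool.Agent.Helper15_WR4.SYM
import Pool.Agent.Helper69_WR4.SYA

/-! WR4: assembly of all rows. -/

namespace Pool.Agent.WR4

theorem done_tmu : TmuStmt := Pool.Agent.WR4.H21.tmu

theorem done_tco : TcoStmt := Pool.Agent.WR4.H22.tco Pool.Agent.WR3.done_upb Pool.Agent.WR3.done_smu Pool.Agent.WR3.done_prd Pool.Agent.WR2.done_pre Pool.Agent.WIR.done_hoe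

theorem done_sls : SlsStmt := Pool.Agent.WR4.H42.sls Pool.Agent.WR3.done_rmu Pool.Agent.WR2.done_pre

theorem done_lng : LngStmt := Pool.Agent.WR4.H13.lng done_tmu Pool.Agent.WR3.done_upb Pool.Agent.WR3.done_smu Pool.Agent.WR3.done_prd Pool.Agent.WR3.done_rmu Pool.Agent.WR2.done_pre Pool.Agent.WIR.done_hoe

theorem done_mcr : McrStmt := Pool.Agent.WR4.H62.mcr Pool.Agent.WR3.done_cvg Pool.Agent.WR2.done_usb Pool.Agent.WIR.done_tyb Pool.Agent.WIR.done_hoe

theorem done_shr : ShrStmt := Pool.Agent.WR4.H17.shr done_mcr Pool.Agent.WIR.done_hoe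

theorem done_shp : ShpStmt := Pool.Agent.WR4.H92.shp Pool.Agent.WIR.done_ulx Pool.Agent.WIR.done_cod Pool.Agent.WR2.done_ava Pool.Agent.WR2.done_wrb

theorem done_sht : ShtStmt := Pool.Agent.WR4.H19.sht done_mcr done_shr done_shp Pool.Agent.WR3.done_smu Pool.Agent.WR2.done_ava Pool.Agent.WR2.done_wrb Pool.Agent.WR2.done_vrb

theorem done_wnr : WnrStmt := Pool.Agent.WR4.H66.wnr done_sls done_lng done_sht Pool.Agent.WR3.done_prd Pool.Agent.WR3.done_smu Pool.Agent.WR2.done_wrb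

theorem done_sub : SubStmt := Pool.Agent.WR4.H15.sub done_tmu Pool.Agent.WR3.done_smu Pool.Agent.WR3.done_del Pool.Agent.WR3.done_prd Pool.Agent.WR3.done_rmu Pool.Agent.WR3.done_rty

theorem done_lim : LimStmt := Pool.Agent.WR4.H90.lim done_sub done_wnr Pool.Agent.WR3.done_rli Pool.Agent.WR3.done_min Pool.Agent.WR2.done_wrb

theorem done_eqd : EqdStmt := Pool.Agent.WR4.H81.eqd done_lim done_tco

theorem done_cnu : CnuStmt := Pool.Agent.WR4.H65.cnu Pool.Agent.WR2.done_ava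

theorem done_dis : DisStmt := Pool.Agent.WR4.H95.dis Pool.Agent.WIR.done_mea Pool.Agent.WIR.done_uts

theorem done_syf : SyfStmt := Pool.Agent.WR4.H25.syf

theorem done_syr : SyrStmt := Pool.Agent.WR4.H13.syr done_syf

theorem done_syc : SycStmt := Pool.Agent.WR4.H86.syc done_syr Pool.Agent.WIR.done_mea

theorem done_cov : CovStmt := Pool.Agent.WR4.H88.cov done_syr Pool.Agent.WIR.done_hoe

theorem done_sym : SymStmt := Pool.Agent.WR4.H15.sym done_syr Pool.Agent.WIR.done_hoe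

theorem done_sya : SyaStmt := Pool.Agent.WR4.H69.sya done_sym Pool.Agent.WIR.done_mea

end Pool.Agent.WR4
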